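import Pool.Agent.Work.MP_904812_al.QMain

/-!
A finitely generated group acting freely (without inversions) on a `Λ`-tree, for an arbitrary
ordered abelian group `Λ`, is discriminated by the torsion-free hyperbolic groups.
-/

namespace Pool.Agent.Results.MP_904812_al.Discrim

open Pool.Agent.Work.MP_904812_al

universe u v w

theorem result {G : Type u} [Group G] {Λ : Type v} [AddCommGroup Λ] [LinearOrder Λ]
    [IsOrderedAddMonoid Λ] {X : Type w} [MulAction G X] (d : X → X → Λ) (hd : IsLTree d)
    (ha : ActsFreely G d) (fg : Group.FG G) (A : Finset G) (hA : ∀ a ∈ A, a ≠ 1) :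
    ∃ (D : Type) (_ : Group D) (φ : G →* D), IsHyperbolic D ∧
      (∀ g : D, IsOfFinOrder g → g = 1) ∧ ∀ a ∈ A, φ a ≠ 1 :=
  disc hd ha fg A hA

end Pool.Agent.Results.MP_904812_al.Discrim
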