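import Pool.Agent.Work.MP_904812_al.Main

/-!
A group generated by `n` elements that acts freely (without inversions) on a `Λ`-tree, for an
arbitrary ordered abelian group `Λ`, acts freely on an `ℝ^(3n)`-tree, `ℝ^(3n)` being ordered
lexicographically.
-/

namespace Pool.Agent.Results.MP_904812_al.RnFree

open Pool.Agent.Work.MP_904812_al

universe u v w

theorem result {G : Type u} [Group G] {Λ : Type v} [AddCommGroup Λ] [LinearOrder Λ]
    [IsOrderedAddMonoid Λ] {X : Type w} [MulAction G X] (d : X → X → Λ) (hd : IsLTree d)
    (ha : ActsFreely G d) (s : Finset G) (hs : Subgroup.closure (s : Set G) = ⊤) :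
    IsLFree G (Lex (Fin (3 * s.card) → ℝ)) :=
  main hd ha s hs

end Pool.Agent.Results.MP_904812_al.RnFree
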